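import Mathlib

set_option autoImplicit false

namespace Pool.Agent.H.MP_efc620_co

open Polynomial

theorem nonreal : ∃ z : ℂ, z.im ≠ 0 ∧ z ^ 4 + 7 * z ^ 3 + 13 * z ^ 2 + 8 * z + 2 = 0 := by
  by_contra H
  push Not at H
  let q : ℂ[X] := X ^ 4 + 7 * X ^ 3 + 13 * X ^ 2 + 8 * X + 2
  have hm : q.Monic := by unfold q; monicity!
  have hd : q.natDegree = 4 := by unfold q; compute_degree!
  have hs := IsAlgClosed.splits q
  have hc : q.roots.card = 4 := by rw [← hd]; exact hs.natDegree_eq_card_roots.symm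
  obtain ⟨a, b, c, d, h⟩ := Multiset.card_eq_four.1 hc
  have e := hs.eq_prod_roots_of_monic hm
  have ev : ∀ z : ℂ, q.eval z = z ^ 4 + 7 * z ^ 3 + 13 * z ^ 2 + 8 * z + 2 := by
    intro z; simp [q]
  have re : ∀ z ∈ q.roots, ∃ r : ℝ, z = r := by
    intro z hz
    have h0 : z.im = 0 := by
      by_contra h0
      exact H z h0 (by rw [← ev]; exact (mem_roots hm.ne_zero).1 hz)
    exact ⟨z.re, Complex.ext (by simp) (by simp [h0])⟩
  obtain ⟨a, rfl⟩ := re a (by simp [h])
  obtain ⟨b, rfl⟩ := re b (by simp [h])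
  obtain ⟨c, rfl⟩ := re c (by simp [h])
  obtain ⟨d, rfl⟩ := re d (by simp [h])
  have k : ∀ x : ℝ, x ^ 4 + 7 * x ^ 3 + 13 * x ^ 2 + 8 * x + 2 =
      (x - a) * ((x - b) * ((x - c) * (x - d))) := by
    intro x
    have := ev x
    rw [e, h] at this
    simp only [Multiset.insert_eq_cons, Multiset.map_cons, Multiset.prod_cons,
      Multiset.map_singleton, Multiset.prod_singleton, eval_mul, eval_sub, eval_X, eval_C] at this
    exact_mod_cast this.symm
  have k0 := k 0
  have k1 := k 1
  have k2 := k (-1)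
  have k3 := k 2
  have e4 : a * b * c * d = 2 := by linarith
  have e2 : a * b + a * c + a * d + b * c + b * d + c * d = 13 := by linarith
  have e3 : a * b * c + a * b * d + a * c * d + b * c * d = -8 := by linarith
  have s : (a * b * c) ^ 2 + (a * b * d) ^ 2 + (a * c * d) ^ 2 + (b * c * d) ^ 2 = 12 := by
    have : (a * b * c) ^ 2 + (a * b * d) ^ 2 + (a * c * d) ^ 2 + (b * c * d) ^ 2 =
      (a * b * c + a * b * d + a * c * d + b * c * d) ^ 2 -
        2 * (a * b * c * d) * (a * b + a * c + a * d + b * c + b * d + c * d) := by ring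
    rw [this, e4, e2, e3]; norm_num
  nlinarith [sq_nonneg (a * b * c + 2), sq_nonneg (a * b * d + 2), sq_nonneg (a * c * d + 2),
    sq_nonneg (b * c * d + 2)]

end Pool.Agent.H.MP_efc620_co
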